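import Mathlib

/-!
# MP_d0ec72_al, Q1

Over every field of characteristic zero there is an infinite-dimensional Lie algebra which
satisfies the maximal condition on subalgebras and is residually nilpotent: the Lie algebra of
all derivations `D` of `k[X]` such that `X ^ 2` divides `D X` (the positive part of the Witt
algebra).
-/

set_option autoImplicit false

noncomputable section

namespace Pool.Agent.Results.MP_d0ec72_al.NoetherianResiduallyNilpotent

open Polynomial

universe u

variable (k : Type u) [Field k]

theorem der_apply (D : Derivation k k[X] k[X]) (f : k[X]) : D f = derivative f * D X := by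
  have h : D = mkDerivation k (D X) := by
    apply derivation_ext
    rw [mkDerivation_X]
  conv_lhs => rw [h]
  rw [mkDerivation_apply, smul_eq_mul]

theorem bracket_X (D E : Derivation k k[X] k[X]) :
    (⁅D, E⁆ : Derivation k k[X] k[X]) X = derivative (E X) * D X - derivative (D X) * E X := by
  rw [Derivation.commutator_apply, der_apply k D (E X), der_apply k E (D X)]

theorem dvd_derivative_mul {n m : ℕ} {f g : k[X]} (hf : X ^ (n + 1) ∣ f) (hg : X ^ (m + 1) ∣ g) :
    X ^ (n + m + 1) ∣ derivative f * g := by
  obtain ⟨a, rfl⟩ := hf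
  obtain ⟨b, rfl⟩ := hg
  have : derivative (X ^ (n + 1) * a) = X ^ n * (C ((n : k) + 1) * a + X * derivative a) := by
    rw [derivative_mul, derivative_X_pow]
    push_cast
    simp only [map_add, map_natCast, map_one]
    ring
  rw [this]
  refine ⟨(C ((n : k) + 1) * a + X * derivative a) * b, ?_⟩
  ring

/-- The positive part of the Witt algebra: derivations `D` of `k[X]` with `X ^ 2 ∣ D X`. -/
def Wp : LieSubalgebra k (Derivation k k[X] k[X]) where
  carrier := {D | X ^ 2 ∣ D X}
  zero_mem' := by simp
  add_mem' := fun {a b} ha hb => by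
    simp only [Set.mem_ofPred_eq, Derivation.add_apply] at *
    exact dvd_add ha hb
  smul_mem' := fun c a ha => by
    simp only [Set.mem_ofPred_eq, Derivation.smul_apply] at *
    rw [smul_eq_C_mul]
    exact ha.mul_left _
  lie_mem' := fun {a b} ha hb => by
    simp only [Set.mem_ofPred_eq] at *
    rw [bracket_X]
    have h1 := dvd_derivative_mul k (n := 1) (m := 1) ha hb
    have h2 := dvd_derivative_mul k (n := 1) (m := 1) hb ha
    exact (pow_dvd_pow X (by norm_num)).trans (dvd_sub h2 h1)

/-- The polynomial attached to an element. -/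
def pol : Wp k →ₗ[k] k[X] where
  toFun D := D.1 X
  map_add' a b := rfl
  map_smul' c a := rfl

theorem pol_inj : Function.Injective (pol k) := by
  intro a b h
  exact Subtype.ext (derivation_ext h)

theorem pol_dvd (a : Wp k) : X ^ 2 ∣ pol k a := a.2

theorem pol_lie (a b : Wp k) :
    pol k ⁅a, b⁆ = derivative (pol k b) * pol k a - derivative (pol k a) * pol k b :=
  bracket_X k a.1 b.1

/-- The element with a given polynomial. -/
def elt (f : k[X]) (hf : X ^ 2 ∣ f) : Wp k := ⟨mkDerivation k f, by
  change X ^ 2 ∣ mkDerivation k f X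
  rwa [mkDerivation_X]⟩

theorem pol_elt (f : k[X]) (hf : X ^ 2 ∣ f) : pol k (elt k f hf) = f := mkDerivation_X k f

/-- The ideals of the filtration. -/
def fil (n : ℕ) : LieIdeal k (Wp k) where
  carrier := {D | X ^ (n + 2) ∣ pol k D}
  zero_mem' := by simp
  add_mem' := fun {a b} ha hb => by
    simp only [Set.mem_ofPred_eq, map_add] at *
    exact dvd_add ha hb
  smul_mem' := fun c a ha => by
    simp only [Set.mem_ofPred_eq, map_smul] at *
    rw [smul_eq_C_mul]
    exact ha.mul_left _
  lie_mem := fun {a b} hb => by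
    have hb' : X ^ (n + 1 + 1) ∣ pol k b := hb
    change X ^ (n + 2) ∣ pol k ⁅a, b⁆
    rw [pol_lie]
    have h1 := dvd_derivative_mul k (n := 1) (m := n + 1) (pol_dvd k a) hb'
    have h2 := dvd_derivative_mul k (n := n + 1) (m := 1) hb' (pol_dvd k a)
    refine dvd_sub ((pow_dvd_pow X ?_).trans h2) ((pow_dvd_pow X ?_).trans h1) <;> omega

theorem mem_fil (n : ℕ) (D : Wp k) : D ∈ fil k n ↔ X ^ (n + 2) ∣ pol k D := Iff.rfl

theorem lcs_le (n : ℕ) : LieModule.lowerCentralSeries k (Wp k) (Wp k) n ≤ fil k n := by
  induction n with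
  | zero =>
    intro x _
    exact x.2
  | succ n ih =>
    rw [LieModule.lowerCentralSeries_succ]
    rw [LieSubmodule.lieIdeal_oper_eq_span, LieSubmodule.lieSpan_le]
    rintro _ ⟨⟨x, _⟩, ⟨y, hy⟩, rfl⟩
    have hy' : X ^ (n + 1 + 1) ∣ pol k y := ih hy
    change X ^ (n + 1 + 2) ∣ pol k ⁅x, y⁆
    rw [pol_lie]
    have h1 := dvd_derivative_mul k (n := 1) (m := n + 1) (pol_dvd k x) hy'
    have h2 := dvd_derivative_mul k (n := n + 1) (m := 1) hy' (pol_dvd k x)
    refine dvd_sub ((pow_dvd_pow X ?_).trans h2) ((pow_dvd_pow X ?_).trans h1) <;> omega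

theorem quot_nilpotent (n : ℕ) : LieRing.IsNilpotent (Wp k ⧸ fil k n) := by
  have h : LieModule.IsNilpotent (Wp k) (Wp k ⧸ fil k n) := by
    rw [LieModule.isNilpotent_quotient_iff k]
    exact ⟨n, lcs_le k n⟩
  simp only [LieRing.IsNilpotent, LieModule.isNilpotent_iff k] at h ⊢
  obtain ⟨m, hm⟩ := h
  refine ⟨m, ?_⟩
  rw [← LieSubmodule.toSubmodule_inj] at hm ⊢
  rw [← coe_lowerCentralSeries_ideal_quot_eq]
  exact hm

theorem not_finite : ¬ Module.Finite k (Wp k) := by
  intro h
  have hd : ∀ f : k[X], X ^ 2 ∣ X ^ 2 * f := fun f => dvd_mul_right _ _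
  let g : k[X] →ₗ[k] Wp k :=
    { toFun := fun f => elt k (X ^ 2 * f) (hd f)
      map_add' := fun a b => pol_inj k (by
        rw [map_add, pol_elt, pol_elt, pol_elt, mul_add])
      map_smul' := fun c a => pol_inj k (by
        rw [RingHom.id_apply, map_smul, pol_elt, pol_elt, mul_smul_comm]) }
  have hg : Function.Injective g := by
    intro a b hab
    have h1 : pol k (g a) = pol k (g b) := by rw [hab]
    have h2 : (X : k[X]) ^ 2 * a = X ^ 2 * b := by
      have e1 : pol k (g a) = X ^ 2 * a := pol_elt k _ (hd a)
      have e2 : pol k (g b) = X ^ 2 * b := pol_elt k _ (hd b)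
      rw [← e1, ← e2, h1]
    exact mul_left_cancel₀ (pow_ne_zero 2 X_ne_zero) h2
  exact Polynomial.not_finite (Module.Finite.of_injective g hg)

section max

variable [CharZero k]

/-- The set of degrees of elements of a subalgebra. -/
def deg (S : LieSubalgebra k (Wp k)) : Set ℕ :=
  {n | ∃ D ∈ S, pol k D ≠ 0 ∧ (pol k D).natDegree = n + 1}

theorem deg_mono {S T : LieSubalgebra k (Wp k)} (h : S ≤ T) : deg k S ⊆ deg k T :=
  fun _ ⟨D, hD, h1⟩ => ⟨D, h hD, h1⟩

theorem deg_pos (S : LieSubalgebra k (Wp k)) {n : ℕ} (h : n ∈ deg k S) : 0 < n := by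
  obtain ⟨D, -, h0, h1⟩ := h
  have := natDegree_le_of_dvd (pol_dvd k D) h0
  rw [natDegree_X_pow] at this
  omega

theorem deg_add (S : LieSubalgebra k (Wp k)) {m n : ℕ} (hm : m ∈ deg k S) (hn : n ∈ deg k S)
    (hne : m ≠ n) : m + n ∈ deg k S := by
  obtain ⟨a, ha, a0, a1⟩ := hm
  obtain ⟨b, hb, b0, b1⟩ := hn
  refine ⟨⁅a, b⁆, S.lie_mem ha hb, ?_⟩
  have hle : (pol k ⁅a, b⁆).natDegree ≤ m + n + 1 := by
    rw [pol_lie]
    refine (natDegree_sub_le _ _).trans (max_le ?_ ?_)
    · refine natDegree_mul_le.trans ?_
      have := natDegree_derivative_le (pol k b)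
      omega
    · refine natDegree_mul_le.trans ?_
      have := natDegree_derivative_le (pol k a)
      omega
  have hc : (pol k ⁅a, b⁆).coeff (m + n + 1) =
      ((n : k) - m) * (pol k a).leadingCoeff * (pol k b).leadingCoeff := by
    rw [pol_lie, coeff_sub]
    have e1 : (derivative (pol k b) * pol k a).coeff (m + n + 1) =
        ((n : k) + 1) * (pol k b).leadingCoeff * (pol k a).leadingCoeff := by
      have := coeff_mul_add_eq_of_natDegree_le (f := derivative (pol k b)) (g := pol k a)
        (df := n) (dg := m + 1) (by have := natDegree_derivative_le (pol k b); omega) (by omega)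
      rw [show m + n + 1 = n + (m + 1) by ring, this, coeff_derivative]
      rw [leadingCoeff, leadingCoeff, a1, b1]
      ring
    have e2 : (derivative (pol k a) * pol k b).coeff (m + n + 1) =
        ((m : k) + 1) * (pol k a).leadingCoeff * (pol k b).leadingCoeff := by
      have := coeff_mul_add_eq_of_natDegree_le (f := derivative (pol k a)) (g := pol k b)
        (df := m) (dg := n + 1) (by have := natDegree_derivative_le (pol k a); omega) (by omega)
      rw [show m + n + 1 = m + (n + 1) by ring, this, coeff_derivative]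
      rw [leadingCoeff, leadingCoeff, a1, b1]
      ring
    rw [e1, e2]
    ring
  have hc0 : (pol k ⁅a, b⁆).coeff (m + n + 1) ≠ 0 := by
    rw [hc]
    refine mul_ne_zero (mul_ne_zero ?_ ?_) ?_
    · rw [sub_ne_zero]
      exact_mod_cast hne.symm
    · exact leadingCoeff_ne_zero.2 a0
    · exact leadingCoeff_ne_zero.2 b0
  have hne0 : pol k ⁅a, b⁆ ≠ 0 := by
    rintro h
    rw [h] at hc0
    simp at hc0
  exact ⟨hne0, le_antisymm hle (le_natDegree_of_ne_zero hc0)⟩

/-- A subalgebra is determined by its degrees inside a bigger one. -/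
theorem eq_of_deg {S T : LieSubalgebra k (Wp k)} (h : S ≤ T) (hd : deg k T ⊆ deg k S) : S = T := by
  refine le_antisymm h ?_
  have key : ∀ n : ℕ, ∀ D ∈ T, (pol k D).natDegree < n → D ∈ S := by
    intro n
    induction n with
    | zero => intro D _ h; omega
    | succ n ih =>
      intro D hD hn
      by_cases h0 : pol k D = 0
      · have : D = 0 := pol_inj k (by rw [h0, map_zero])
        rw [this]
        exact S.zero_mem
      · have h2 := natDegree_le_of_dvd (pol_dvd k D) h0
        rw [natDegree_X_pow] at h2
        obtain ⟨m, hm⟩ : ∃ m, (pol k D).natDegree = m + 1 := ⟨(pol k D).natDegree - 1, by omega⟩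
        obtain ⟨E, hE, E0, E1⟩ := hd ⟨D, hD, h0, hm⟩
        set c : k := (pol k D).leadingCoeff / (pol k E).leadingCoeff with hc
        have hF : D - c • E ∈ T := T.sub_mem hD (T.smul_mem c (h hE))
        have hEl : (pol k E).leadingCoeff ≠ 0 := leadingCoeff_ne_zero.2 E0
        have hdeg : (pol k (D - c • E)).natDegree < n ∨ pol k (D - c • E) = 0 := by
          by_cases hz : pol k (D - c • E) = 0
          · exact Or.inr hz
          · left
            have h3 : (pol k (D - c • E)).natDegree ≤ m + 1 := by
              rw [map_sub, map_smul]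
              refine (natDegree_sub_le _ _).trans (max_le hm.le ?_)
              exact (natDegree_smul_le _ _).trans E1.le
            have h4 : (pol k (D - c • E)).coeff (m + 1) = 0 := by
              rw [map_sub, map_smul, coeff_sub, coeff_smul, smul_eq_mul]
              have e1 : (pol k D).coeff (m + 1) = (pol k D).leadingCoeff := by
                rw [leadingCoeff, hm]
              have e2 : (pol k E).coeff (m + 1) = (pol k E).leadingCoeff := by
                rw [leadingCoeff, E1]
              rw [e1, e2, hc]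
              field_simp
              ring
            have h5 : (pol k (D - c • E)).natDegree ≠ m + 1 := by
              intro h5
              have : (pol k (D - c • E)).leadingCoeff = 0 := by rw [leadingCoeff, h5, h4]
              exact hz (leadingCoeff_eq_zero.1 this)
            omega
        have hFS : D - c • E ∈ S := by
          rcases hdeg with h6 | h6
          · exact ih _ hF h6
          · have : D - c • E = 0 := pol_inj k (by rw [h6, map_zero])
            rw [this]
            exact S.zero_mem
        have : D = (D - c • E) + c • E := by abel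
        rw [this]
        exact S.add_mem hFS (S.smul_mem c hE)
  intro D hD
  exact key _ D hD (Nat.lt_succ_self _)

theorem chain (a : ℕ →o LieSubalgebra k (Wp k)) : ∃ n, ∀ m, n ≤ m → a n = a m := by
  by_cases h0 : ∀ n, deg k (a n) = ∅
  · refine ⟨0, fun m hm => eq_of_deg k (a.monotone hm) ?_⟩
    rw [h0]
    exact Set.empty_subset _
  push Not at h0
  obtain ⟨n0, d, hd⟩ := h0
  have dpos := deg_pos k _ hd
  -- adding multiples of d
  have hadd : ∀ n, n0 ≤ n → ∀ x ∈ deg k (a n), x ≠ d → ∀ j : ℕ, x + j * d ∈ deg k (a n) := by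
    intro n hn x hx hxd j
    induction j with
    | zero => simpa using hx
    | succ j ih =>
      have hd' : d ∈ deg k (a n) := deg_mono k (a.monotone hn) hd
      have hne : x + j * d ≠ d := by
        intro h
        have hxpos := deg_pos k _ hx
        rcases Nat.eq_zero_or_pos j with rfl | hj
        · simp at h; exact hxd h
        · have : d ≤ j * d := Nat.le_mul_of_pos_left d hj
          omega
      have := deg_add k _ ih hd' hne
      rw [show x + (j + 1) * d = x + j * d + d by ring]
      exact this
  have hres : ∀ r : Fin d, ∃ N, n0 ≤ N ∧ ∀ n, ∀ x ∈ deg k (a n), x % d = r → x ≠ d →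
      x ∈ deg k (a N) := by
    intro r
    by_cases hU : ∃ x, ∃ n, n0 ≤ n ∧ x ∈ deg k (a n) ∧ x % d = r ∧ x ≠ d
    · classical
      obtain ⟨N, hN, h1, h2, h3⟩ := Nat.find_spec hU
      refine ⟨N, hN, fun n x hx hxr hxd => ?_⟩
      have hmin : Nat.find hU ≤ x := Nat.find_min' hU
        ⟨max n n0, le_max_right _ _, deg_mono k (a.monotone (le_max_left _ _)) hx, hxr, hxd⟩
      have hmod : Nat.find hU % d = x % d := by rw [h2, hxr]
      obtain ⟨j, hj⟩ := (Nat.modEq_iff_dvd' hmin).1 hmod
      have := hadd N hN _ h1 h3 j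
      have e : x = Nat.find hU + j * d := by
        rw [mul_comm j d, ← hj]; omega
      rw [e]
      exact this
    · refine ⟨n0, le_rfl, fun n x hx hxr hxd => ?_⟩
      exact absurd ⟨x, max n n0, le_max_right _ _,
        deg_mono k (a.monotone (le_max_left _ _)) hx, hxr, hxd⟩ hU
  choose N hN0 hN using hres
  let M := Finset.univ.sup N
  have hM : ∀ r, N r ≤ M := fun r => Finset.le_sup (Finset.mem_univ r)
  have hM0 : n0 ≤ M := (hN0 ⟨0, dpos⟩).trans (hM _)
  refine ⟨M, fun m hm => eq_of_deg k (a.monotone hm) ?_⟩
  intro x hx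
  by_cases hxd : x = d
  · rw [hxd]
    exact deg_mono k (a.monotone hM0) hd
  · have := hN ⟨x % d, Nat.mod_lt _ dpos⟩ m x hx rfl hxd
    exact deg_mono k (a.monotone (hM _)) this

end max

/-- Over every field of characteristic zero there is an infinite-dimensional Lie algebra that
satisfies the maximal condition on subalgebras and is residually nilpotent. -/
theorem result (k : Type u) [Field k] [CharZero k] :
    ∃ (L : Type u) (_ : LieRing L) (_ : LieAlgebra k L),
      ¬ Module.Finite k L ∧
      (∀ a : ℕ →o LieSubalgebra k L, ∃ n, ∀ m, n ≤ m → a n = a m) ∧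
      (∀ x : L, x ≠ 0 → ∃ I : LieIdeal k L, x ∉ I ∧ LieRing.IsNilpotent (L ⧸ I)) := by
  refine ⟨Wp k, inferInstance, inferInstance, not_finite k, chain k, fun x hx => ?_⟩
  have hp : pol k x ≠ 0 := fun h => hx (pol_inj k (by rw [h, map_zero]))
  refine ⟨fil k (pol k x).natDegree, fun h => ?_, quot_nilpotent k _⟩
  have := natDegree_le_of_dvd ((mem_fil k _ x).1 h) hp
  rw [natDegree_X_pow] at this
  omega

end Pool.Agent.Results.MP_d0ec72_al.NoetherianResiduallyNilpotent
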